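import Pool.Agent.U542.EqDeg.Main

/-!
# Equal-degree vertices joined by a path of length three

For every `n ≥ 2`, every graph with `2 n + 1` vertices and at least `n ^ 2 + n + 1` edges contains
two distinct vertices of equal degree which are joined by a path of length three.
-/

set_option autoImplicit false

namespace Pool.Agent.Results.MP_b875bc_co.EqualDegrees

open Pool.Agent.U542.EqDeg

/-- Every graph with `2 n + 1` vertices and at least `n ^ 2 + n + 1` edges (`n ≥ 2`) contains two
distinct vertices of equal degree joined by a path of length three. -/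
theorem result (n : ℕ) (hn : 2 ≤ n) {V : Type*} [Fintype V] [DecidableEq V] (G : SimpleGraph V)
    [DecidableRel G.Adj] (hV : Fintype.card V = 2 * n + 1)
    (hE : n ^ 2 + n + 1 ≤ G.edgeFinset.card) :
    ∃ x₁ x₂ : V, x₁ ≠ x₂ ∧ G.degree x₁ = G.degree x₂ ∧
      ∃ p : G.Walk x₁ x₂, p.IsPath ∧ p.length = 3 := by
  by_contra hcon
  refine main (G := G) n hn hV hE ?_
  intro a b c e hab hbc hce hac hbe hae hdeg
  refine hcon ⟨a, e, hae, hdeg,
    SimpleGraph.Walk.cons hab (SimpleGraph.Walk.cons hbc (SimpleGraph.Walk.cons hce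
      SimpleGraph.Walk.nil)), ?_, rfl⟩
  simp [SimpleGraph.Walk.cons_isPath_iff, hab.ne, hac, hae, hbc.ne, hbe, hce.ne]

end Pool.Agent.Results.MP_b875bc_co.EqualDegrees
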